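import Mathlib

set_option autoImplicit false

namespace Pool.H89.Comm3

open Matrix

/-- `C B A = A B` with `A`, `B` of unit determinant makes `C` a commutator. -/
lemma comm_of_eq {n : ℕ} (C A B : Matrix (Fin n) (Fin n) ℤ) (hA : IsUnit A.det)
    (hB : IsUnit B.det) (h : C * (B * A) = A * B) :
    ∃ A B : (Matrix (Fin n) (Fin n) ℤ)ˣ,
      ((A * B * A⁻¹ * B⁻¹ : (Matrix (Fin n) (Fin n) ℤ)ˣ) : Matrix (Fin n) (Fin n) ℤ) = C := by
  obtain ⟨A', hA'⟩ := (Matrix.isUnit_iff_isUnit_det A).mpr hA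
  obtain ⟨B', hB'⟩ := (Matrix.isUnit_iff_isUnit_det B).mpr hB
  refine ⟨A', B', ?_⟩
  have h2 : ((A' * B' * A'⁻¹ * B'⁻¹ : (Matrix (Fin n) (Fin n) ℤ)ˣ) : Matrix (Fin n) (Fin n) ℤ)
      = (C * (B' * A')) * ((A'⁻¹ * B'⁻¹ : (Matrix (Fin n) (Fin n) ℤ)ˣ)
        : Matrix (Fin n) (Fin n) ℤ) := by
    rw [hA', hB', h, ← hA', ← hB']
    simp only [Units.val_mul, mul_assoc]
  rw [h2, ← Units.val_mul, mul_assoc, ← Units.val_mul]
  have h3 : (B' * A') * (A'⁻¹ * B'⁻¹) = 1 := by group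
  rw [h3, Units.val_one, mul_one]

/-- Being a commutator is invariant under conjugation. -/
lemma comm_conj {n : ℕ} (C C' : Matrix (Fin n) (Fin n) ℤ) (Q : (Matrix (Fin n) (Fin n) ℤ)ˣ)
    (hQ : C * Q = Q * C')
    (h : ∃ A B : (Matrix (Fin n) (Fin n) ℤ)ˣ,
      ((A * B * A⁻¹ * B⁻¹ : (Matrix (Fin n) (Fin n) ℤ)ˣ) : Matrix (Fin n) (Fin n) ℤ) = C') :
    ∃ A B : (Matrix (Fin n) (Fin n) ℤ)ˣ,
      ((A * B * A⁻¹ * B⁻¹ : (Matrix (Fin n) (Fin n) ℤ)ˣ) : Matrix (Fin n) (Fin n) ℤ) = C := by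
  obtain ⟨A, B, h⟩ := h
  refine ⟨Q * A * Q⁻¹, Q * B * Q⁻¹, ?_⟩
  have h1 : (Q * A * Q⁻¹) * (Q * B * Q⁻¹) * (Q * A * Q⁻¹)⁻¹ * (Q * B * Q⁻¹)⁻¹
      = Q * (A * B * A⁻¹ * B⁻¹) * Q⁻¹ := by group
  rw [h1, Units.val_mul, Units.val_mul, h, ← hQ, mul_assoc, Units.mul_inv, mul_one]

/-- The explicit family. -/
lemma family (q b c e g : ℤ) (hq : q = 1 ∨ q = -1) :
    ∃ A B : (Matrix (Fin 3) (Fin 3) ℤ)ˣ,
      ((A * B * A⁻¹ * B⁻¹ : (Matrix (Fin 3) (Fin 3) ℤ)ˣ) : Matrix (Fin 3) (Fin 3) ℤ)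
        = !![0, q, q; 1, b, c; g, q + e - g * (c - b), e] := by
  obtain ⟨b0, hb0⟩ : ∃ b0 : ℤ, b0 = (q+1)*(g+q+c)+(e-(q+c)*g)-q*(c-b) := ⟨_, rfl⟩
  apply comm_of_eq _ (!![0, q, 0; 1, -q, 0; g, e-(q+c)*g, 1])
    (!![b0, b0 - g - q - c, 1; 1, 0, 0; 0, 1, 0])
  · rw [Matrix.det_fin_three]
    simp
    rcases hq with h | h <;> subst h <;> simp
  · rw [Matrix.det_fin_three]
    simp
  · subst hb0
    rcases hq with h | h <;> subst h <;>
    · ext i j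
      fin_cases i <;> fin_cases j <;>
        simp [Matrix.mul_apply, Fin.sum_univ_three] <;> ring


/-- Matrices `[[0,p,q],[1,r,s],[0,t,u]]` of determinant one with `q = ± 1`. -/
lemma shape (p q r s t u : ℤ) (hq : q = 1 ∨ q = -1) (hdet : q * t - p * u = 1) :
    ∃ A B : (Matrix (Fin 3) (Fin 3) ℤ)ˣ,
      ((A * B * A⁻¹ * B⁻¹ : (Matrix (Fin 3) (Fin 3) ℤ)ˣ) : Matrix (Fin 3) (Fin 3) ℤ)
        = !![0, p, q; 1, r, s; 0, t, u] := by
  have hU : IsUnit (!![1, 0, 0; 0, 1, 0; 0, -(p * q - 1), 1] : Matrix (Fin 3) (Fin 3) ℤ).det := by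
    rw [Matrix.det_fin_three]
    simp
  obtain ⟨U, hU'⟩ := (Matrix.isUnit_iff_isUnit_det _).mpr hU
  apply comm_conj _ _ U _ (family q (r - (p * q - 1) * s) s ((p * q - 1) * s + u) (p * q - 1) hq)
  rw [hU']
  have ht : t = q * (1 + p * u) := by
    rcases hq with h | h <;> subst h <;> linarith
  subst ht
  rcases hq with h | h <;> subst h <;>
  · ext i j
    fin_cases i <;> fin_cases j <;>
      simp [Matrix.mul_apply, Fin.sum_univ_three] <;> ring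

theorem three (C : Matrix (Fin 3) (Fin 3) ℤ) (hC : C.det = 1) (v z : Fin 3 → ℤ)
    (h1 : IsUnit (Matrix.of ![v, C *ᵥ v, z]).det)
    (h2 : IsUnit (Matrix.of ![C *ᵥ v, z, C *ᵥ z]).det) :
    ∃ A B : (Matrix (Fin 3) (Fin 3) ℤ)ˣ,
      ((A * B * A⁻¹ * B⁻¹ : (Matrix (Fin 3) (Fin 3) ℤ)ˣ) : Matrix (Fin 3) (Fin 3) ℤ) = C := by
  rw [← Matrix.det_transpose] at h1 h2
  obtain ⟨P, hP⟩ := (Matrix.isUnit_iff_isUnit_det _).mpr h1
  obtain ⟨M, hM⟩ : ∃ M : Matrix (Fin 3) (Fin 3) ℤ, M = (P⁻¹).val * C * P.val := ⟨_, rfl⟩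
  have hCP : C * P.val = P.val * M := by
    rw [hM, ← mul_assoc, ← mul_assoc, Units.mul_inv, one_mul]
  have hdetM : M.det = 1 := by
    rw [hM, Matrix.det_units_conj', hC]
  have hP0 : ∀ k, P.val k 0 = v k := by
    intro k
    rw [hP]
    rfl
  have hP1 : ∀ k, P.val k 1 = (C *ᵥ v) k := by
    intro k
    rw [hP]
    rfl
  have hP2 : ∀ k, P.val k 2 = z k := by
    intro k
    rw [hP]
    rfl
  have hM0 : ∀ i, M i 0 = (1 : Matrix (Fin 3) (Fin 3) ℤ) i 1 := by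
    intro i
    have e1 : M = (P⁻¹).val * (C * P.val) := by
      rw [hM, mul_assoc]
    have e2 : ∀ k, (C * P.val) k 0 = P.val k 1 := by
      intro k
      rw [hP1, Matrix.mul_apply]
      simp only [Matrix.mulVec, dotProduct, hP0]
    rw [e1, Matrix.mul_apply]
    simp only [e2]
    rw [← Matrix.mul_apply, Units.inv_mul]
  have hM' : M = !![0, M 0 1, M 0 2; 1, M 1 1, M 1 2; 0, M 2 1, M 2 2] := by
    ext i j
    fin_cases i <;> fin_cases j <;> simp [hM0]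
  have hrel : M 0 2 * M 2 1 - M 0 1 * M 2 2 = 1 := by
    rw [Matrix.det_fin_three] at hdetM
    have a0 := hM0 0
    have a1 := hM0 1
    have a2 := hM0 2
    simp at a0 a1 a2
    rw [a0, a1, a2] at hdetM
    linarith
  have hq : M 0 2 = 1 ∨ M 0 2 = -1 := by
    have hK : (Matrix.of ![C *ᵥ v, z, C *ᵥ z])ᵀ
        = P.val * !![0, 0, M 0 2; 1, 0, M 1 2; 0, 1, M 2 2] := by
      have e3 : ∀ k, (C * P.val) k 2 = (C *ᵥ z) k := by
        intro k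
        rw [Matrix.mul_apply]
        simp only [Matrix.mulVec, dotProduct, hP2]
      ext i j
      fin_cases j
      · simp [Matrix.mul_apply, Fin.sum_univ_three, hP1]
      · simp [Matrix.mul_apply, Fin.sum_univ_three, hP2]
      · have := e3 i
        rw [hCP, Matrix.mul_apply, Fin.sum_univ_three] at this
        simp [Matrix.mul_apply, Fin.sum_univ_three]
        rw [← this]
    rw [hK, Matrix.det_mul] at h2
    have h3 := isUnit_of_mul_isUnit_right h2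
    rw [Matrix.det_fin_three] at h3
    simp at h3
    exact Int.isUnit_iff.mp h3
  apply comm_conj C M P hCP
  rw [hM']
  exact shape _ _ _ _ _ _ hq hrel

end Pool.H89.Comm3
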